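import Pool.Agent.R602.Fin

/-!
# Countable unions of 2-embedded N-compact subspaces in ZF

There is a model of ZF with a zero-dimensional `T₁`-space that is the union of a sequence of
N-compact 2-embedded subspaces and is not N-compact.
The first half of the theorem is proved outright, the second half gives such a model from every
model of ZF. The definitions are in `Pool.Agent.R602.Defs`.
-/

namespace Pool.Agent.Results.MP_63c7e0_lc.TwoEmbeddedUnion

open FirstOrder FirstOrder.Language
open Pool.Agent.Helper672.Plain (LSet El)
open Pool.Agent.H635Amen (ZF IsReals)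
open Pool.Agent.H310Top (IsTopology)
open Pool.Agent.R602St

universe u

/-- The model `N` contains a zero-dimensional `T₁`-space `x` that is the union of a sequence of
subspaces `s` that are N-compact and 2-embedded in `x`, and `x` is not N-compact. -/
def Counterexample (N : Type u) [LSet.Structure N] : Prop :=
  ∃ t x : N, IsTopology t x ∧ IsZeroDim t x ∧ IsT1 t x ∧
    IsSeqUnion x (fun s => (∃ t', IsSubTop t' s t ∧ IsNCompact t' s) ∧ IsTwoEmbedded t x s) ∧
      ¬ IsNCompact t x

theorem result :
    (∃ (N : Type 1) (_ : LSet.Structure N), ZF N ∧ Counterexample N) ∧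
    ∀ (M : Type u) [LSet.Structure M], ZF M →
      ∃ (N : Type u) (_ : LSet.Structure N), ZF N ∧ Counterexample N :=
  ⟨Pool.Agent.R602.exists_model_zs (fun N _ => Counterexample N) fun _ _ _ _ _ S =>
    Pool.Agent.R602.fin2 S,
   fun M _ h => Pool.Agent.R602.exists_model (fun N _ => Counterexample N) (fun _ _ _ _ _ S =>
    Pool.Agent.R602.fin2 S) M h⟩

end Pool.Agent.Results.MP_63c7e0_lc.TwoEmbeddedUnion
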